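import Pool.Agent.Helper26.WR.Stmts

set_option autoImplicit false

/-! # The lower bound for wreath products -/

namespace Pool.Agent.Helper26.WR

open Pool.Agent.Helper21.DN

universe u

/-- a Galois extension with a given `p`-group -/
theorem lbw_ext (g1 : ST_EMB.{u}) (p : ℕ) [Fact p.Prime] (k : Type u) [Field k] [CharP k p]
    [IsAlgClosed k] (P : Type) [Group P] [Finite P] (hP : IsPGroup p P) :
    ∃ (L : Type u) (_ : Field L) (_ : Algebra (LaurentSeries k) L)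
      (_ : FiniteDimensional (LaurentSeries k) L) (_ : IsGalois (LaurentSeries k) L),
      Nonempty ((L ≃ₐ[LaurentSeries k] L) ≃* P) := by
  have hsub : ∀ a b : (LaurentSeries k) ≃ₐ[LaurentSeries k] (LaurentSeries k), a = b := by
    intro a b
    ext1 x
    have ha := a.commutes x
    have hb := b.commutes x
    rw [Algebra.algebraMap_self_apply] at ha hb
    rw [ha, hb]
  obtain ⟨M, iF, iA, iA2, iS, iFD, iG, i, _⟩ := g1 p k (LaurentSeries k) P hP
    (1 : P →* ((LaurentSeries k) ≃ₐ[LaurentSeries k] (LaurentSeries k)))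
    (fun x => ⟨1, hsub _ _⟩)
  exact ⟨M, iF, iA, iFD, iG, ⟨i⟩⟩

/-- a finite set containing all supports -/
theorem lbw_J (p : ℕ) {X k : Type*} [Finite X] [Field k] (a : X → (ℕ →₀ k))
    (ha : ∀ x, ∀ j ∈ (a x).support, ¬ p ∣ j) :
    ∃ J : Finset ℕ, (∀ x, (a x).support ⊆ J) ∧ ∀ j ∈ J, ¬ p ∣ j := by
  classical
  have := Fintype.ofFinite X
  refine ⟨Finset.univ.biUnion fun x => (a x).support, ?_, ?_⟩
  · intro x j hj
    exact Finset.mem_biUnion.2 ⟨x, Finset.mem_univ _, hj⟩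
  · intro j hj
    obtain ⟨x, _, hx⟩ := Finset.mem_biUnion.1 hj
    exact ha x j hx

/-- the conductor of a nontrivial `p`-extension is positive -/
theorem lbw_pos (g5 : ST_COND.{u}) (g6 : ST_RFV.{u}) (p : ℕ) [Fact p.Prime] (k : Type u)
    [Field k] [CharP k p] [IsAlgClosed k] (L : Type u) [Field L] [Algebra (LaurentSeries k) L]
    [FiniteDimensional (LaurentSeries k) L] [IsGalois (LaurentSeries k) L]
    (v : AddValuation L (WithTop ℤ)) (hv : ∀ x, v x = val k L x) (hr : Ram (κ0 k) v)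
    (hp : IsPGroup p (L ≃ₐ[LaurentSeries k] L)) (hn : Nontrivial (L ≃ₐ[LaurentSeries k] L)) :
    0 < conductor k L := by
  classical
  rw [g5 p k L v hv hr hp hn]
  have hrf := g6 p k (LaurentSeries k) L (κ0 k) v hr hp
  obtain ⟨g, hg⟩ := exists_ne (1 : L ≃ₐ[LaurentSeries k] L)
  have h1 : 1 ≤ S1 (fun σ : L ≃ₐ[LaurentSeries k] L => s v σ) := by
    refine le_trans (hrf.pos g hg) ?_
    unfold S1
    exact Finset.single_le_sum (f := fun σ : L ≃ₐ[LaurentSeries k] L => s v σ)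
      (fun _ _ => Nat.zero_le _) (Finset.mem_filter.2 ⟨Finset.mem_univ _, hg⟩)
  have h1' : (1 : ℝ) ≤ (S1 (fun σ : L ≃ₐ[LaurentSeries k] L => s v σ) : ℝ) := by
    exact_mod_cast h1
  have h2 : (0 : ℝ) ≤ (x0 (fun σ : L ≃ₐ[LaurentSeries k] L => s v σ) : ℝ) := Nat.cast_nonneg _
  unfold Pool.Agent.Helper21.DN.cond
  refine div_pos (by linarith) ?_
  exact_mod_cast Fintype.card_pos

/-- division in `WithTop ℤ` -/
theorem lbw_div (n m : ℕ) (hn : 0 < n) (x : WithTop ℤ)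
    (h : n • x = ((-((m * n : ℕ) : ℤ) : ℤ) : WithTop ℤ)) :
    x = ((-(m : ℤ) : ℤ) : WithTop ℤ) := by
  induction x using WithTop.recTopCoe with
  | top =>
    exfalso
    obtain ⟨n', rfl⟩ : ∃ n', n = n' + 1 := ⟨n - 1, by omega⟩
    rw [succ_nsmul, add_top] at h
    exact WithTop.top_ne_coe h
  | coe z =>
    rw [← WithTop.coe_nsmul] at h
    have h' : n • z = -((m * n : ℕ) : ℤ) := WithTop.coe_injective h
    have h2 : (n : ℤ) * z = -((m : ℤ) * n) := by
      rw [nsmul_eq_mul] at h'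
      push_cast at h'
      exact h'
    have h3 : (n : ℤ) * z = (n : ℤ) * (-(m : ℤ)) := by
      rw [h2]
      ring
    have hn' : (n : ℤ) ≠ 0 := by exact_mod_cast hn.ne'
    have h4 : z = -(m : ℤ) := mul_left_cancel₀ hn' h3
    rw [h4]

/-- the valuation of an inverse -/
theorem lbw_inv {F : Type u} [Field F] (v : AddValuation F (WithTop ℤ)) (x : F) (m : ℤ)
    (h : v x = ((-m : ℤ) : WithTop ℤ)) : v x⁻¹ = (m : WithTop ℤ) := by
  have hx : x ≠ 0 := by
    rintro rfl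
    rw [AddValuation.map_zero] at h
    exact WithTop.top_ne_coe h
  have h1 : v x + v x⁻¹ = 0 := by
    rw [← AddValuation.map_mul, mul_inv_cancel₀ hx, AddValuation.map_one]
  rw [h] at h1
  revert h1
  induction v x⁻¹ using WithTop.recTopCoe with
  | top =>
    intro h1
    simp at h1
  | coe z =>
    intro h1
    have h2 : ((-m + z : ℤ) : WithTop ℤ) = ((0 : ℤ) : WithTop ℤ) := by
      rw [WithTop.coe_add]
      exact h1
    have h3 : -m + z = 0 := WithTop.coe_injective h2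
    have h4 : z = m := by omega
    rw [h4]

/-- substitution into a monomial -/
theorem lbw_mono {k F : Type u} [Field k] [Field F] (ι : LaurentSeries k →+* F) (z : F)
    (hz : z ≠ 0) (h : ι (HahnSeries.single (1 : ℤ) (1 : k)) = z⁻¹) (j : ℕ) (c : k) :
    ι (HahnSeries.single (-(j : ℤ)) c) = ι (κ0 k c) * z ^ j := by
  have h1 : (HahnSeries.single (-(j : ℤ)) c : LaurentSeries k) *
      (HahnSeries.single (1 : ℤ) (1 : k)) ^ j = κ0 k c := by
    rw [HahnSeries.single_pow, HahnSeries.single_mul_single, one_pow, mul_one]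
    have : -(j : ℤ) + j • (1 : ℤ) = 0 := by
      rw [nsmul_eq_mul]
      ring
    rw [this]
    rfl
  have h2 : ι (HahnSeries.single (-(j : ℤ)) c) * (z⁻¹) ^ j = ι (κ0 k c) := by
    rw [← h1, map_mul, map_pow, h]
  rw [← h2, mul_assoc, ← mul_pow, inv_mul_cancel₀ hz, one_pow, mul_one]

/-- substitution into a finite Laurent polynomial -/
theorem lbw_pol {k F : Type u} [Field k] [Field F] (ι : LaurentSeries k →+* F) (z : F)
    (hz : z ≠ 0) (h : ι (HahnSeries.single (1 : ℤ) (1 : k)) = z⁻¹) (a : ℕ →₀ k) (J : Finset ℕ)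
    (hJ : a.support ⊆ J) :
    ι (pol a) = ∑ j ∈ J, ι (κ0 k (a j)) * z ^ j := by
  unfold pol
  rw [Finsupp.sum, map_sum]
  rw [Finset.sum_subset hJ (f := fun j : ℕ => ι (HahnSeries.single (-(j : ℤ)) (a j)))]
  · refine Finset.sum_congr rfl fun j _ => ?_
    exact lbw_mono ι z hz h j (a j)
  · intro j _ hj
    rw [Finsupp.notMem_support_iff.1 hj]
    rw [HahnSeries.single_eq_zero, map_zero]

/-- a finite union of finite sets misses a nonzero element of an infinite field -/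
theorem lbw_avoid {X : Type*} [Finite X] {k : Type u} [Field k] [Infinite k]
    (S : X → Set k) (q : X → Prop) (hS : ∀ x, q x → (S x).Finite) :
    ∃ l : k, l ≠ 0 ∧ ∀ x, q x → l ∉ S x := by
  classical
  have h1 : (⋃ x : {x : X // q x}, S x.1).Finite :=
    Set.finite_iUnion fun x => hS x.1 x.2
  have h2 : ((⋃ x : {x : X // q x}, S x.1) ∪ {0}).Finite := h1.union (Set.finite_singleton _)
  obtain ⟨l, hl⟩ := h2.exists_notMem
  refine ⟨l, ?_, ?_⟩
  · intro h0
    exact hl (Or.inr h0)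
  · intro x hx hlx
    exact hl (Or.inl (Set.mem_iUnion.2 ⟨⟨x, hx⟩, hlx⟩))

/-- coset representatives from a transitive action -/
theorem lbw_bij {G : Type u} [Group G] {P1 : Type} [Group P1] (i1 : G ≃* P1) {W : Type}
    [MulAction P1 W] (w0 : W) (τ : W → G) (hτ : ∀ w, i1 (τ w) • w0 = w) :
    Function.Bijective fun w => (QuotientGroup.mk (τ w) :
      G ⧸ (MulAction.stabilizer P1 w0).comap i1.toMonoidHom) := by
  have hmem : ∀ g : G, g ∈ (MulAction.stabilizer P1 w0).comap i1.toMonoidHom ↔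
      i1 g • w0 = w0 := fun g => Iff.rfl
  constructor
  · intro w w' h
    have h1 := QuotientGroup.eq.1 h
    rw [hmem, map_mul, mul_smul, hτ, map_inv, inv_smul_eq_iff, hτ] at h1
    exact h1.symm
  · intro q
    induction q using QuotientGroup.induction_on with
    | H g =>
      refine ⟨i1 g • w0, ?_⟩
      refine QuotientGroup.eq.2 ?_
      rw [hmem, map_mul, mul_smul, map_inv, inv_smul_eq_iff, hτ]

set_option maxHeartbeats 1600000 in
/-- the construction, given the base field `L` -/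
theorem lbw_core (h1 : ST_EVA.{u}) (h2 : ST_TAME.{u}) (h3 : ST_CT.{u}) (h4 : ST_CHA.{u})
    (h5 : ST_TRC.{u}) (h6 : ST_GEN.{u}) (h7 : ST_ONE.{u}) (g2 : ST_RAM.{u}) (g3 : ST_TOW.{u})
    (g5 : ST_COND.{u}) (g6 : ST_RFV.{u}) (g7 : ST_VAL.{u})
    (p : ℕ) [Fact p.Prime] (k : Type u) [Field k] [CharP k p] [IsAlgClosed k]
    (P1 : Type) [Group P1] (W : Type) [Fintype W] [Nonempty W] [MulAction P1 W]
    (B : Type) [Group B] [Finite B] [Nontrivial B] (hB : IsPGroup p B)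
    (L : Type u) [Field L] [Algebra (LaurentSeries k) L] [FiniteDimensional (LaurentSeries k) L]
    [IsGalois (LaurentSeries k) L] (vL : AddValuation L (WithTop ℤ))
    (hvL : ∀ x, vL x = val k L x) (hRL : Ram (κ0 k) vL)
    (hPL : IsPGroup p (L ≃ₐ[LaurentSeries k] L)) (i1 : (L ≃ₐ[LaurentSeries k] L) ≃* P1)
    (w0 : W) (τ : W → (L ≃ₐ[LaurentSeries k] L)) (hτ : ∀ w, i1 (τ w) • w0 = w)
    (c1 : ℝ) (hc1 : CLB p k L c1) (d : ℕ)
    (hd : so (fun g : L ≃ₐ[LaurentSeries k] L => s vL g)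
      ((MulAction.stabilizer P1 w0).comap i1.toMonoidHom) =
        Nat.card ((MulAction.stabilizer P1 w0).comap i1.toMonoidHom) * d)
    (c : ℝ) (hc : c ∈ condSet k B) (e : ℤ) (a : ℕ) (ha : 1 ≤ a) (he : ¬ (p : ℤ) ∣ e) :
    ∃ m : ℕ, ((p ^ a : ℕ) : ℤ) ∣ (m : ℤ) - e ∧
      ((m : ℝ) * c + (d : ℝ)) / (Fintype.card W : ℝ) ∈ condSet k (WP W B P1) := by
  classical
  obtain ⟨M0, iF0, iA0, iFD0, iG0, ⟨i0⟩, rfl⟩ := hc
  obtain ⟨vM, hvM, hRM⟩ := g2 k M0
  have hPM : IsPGroup p (M0 ≃ₐ[LaurentSeries k] M0) := hB.of_injective i0.toMonoidHom i0.injective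
  have hNM : Nontrivial (M0 ≃ₐ[LaurentSeries k] M0) := i0.toEquiv.nontrivial
  have hcpos : 0 < conductor k M0 := lbw_pos g5 g6 p k M0 vM hvM hRM hPM hNM
  have hWpos : (0 : ℝ) < (Fintype.card W : ℝ) := by exact_mod_cast Fintype.card_pos
  -- characters
  have hchi := fun χ : B →* Multiplicative (ZMod p) => h4 p k M0 (χ.comp i0.toMonoidHom)
  choose y0 a0 ha0 hy0 hyp ha1 using hchi
  have : NeZero p := ⟨(Fact.out : p.Prime).ne_zero⟩
  have : Finite (Multiplicative (ZMod p)) := inferInstanceAs (Finite (ZMod p))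
  have hfin : Finite (B →* Multiplicative (ZMod p)) :=
    Finite.of_injective (fun f : B →* Multiplicative (ZMod p) => (f : B → Multiplicative (ZMod p)))
      DFunLike.coe_injective
  obtain ⟨J, hJs, hJ⟩ := lbw_J p a0 ha0
  have hane : ∀ χ : B →* Multiplicative (ZMod p), χ ≠ 1 → ∃ j ∈ J, a0 χ j ≠ 0 := by
    intro χ hχ
    by_contra hcon
    push Not at hcon
    apply hχ
    have h0 : a0 χ = 0 := by
      ext j
      by_cases hj : j ∈ J
      · exact hcon j hj
      · exact Finsupp.notMem_support_iff.1 fun hj' => hj (hJs χ hj')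
    have h1' := ha1 χ h0
    ext b
    have h2' := DFunLike.congr_fun h1' (i0.symm b)
    simpa using h2'
  -- `m0`
  obtain ⟨m0, hm0⟩ := exists_nat_gt (c1 * (Fintype.card W : ℝ) / conductor k M0)
  have hbij := lbw_bij i1 w0 τ hτ
  obtain ⟨T, m, hm, hdm, hTf, hvT, hTr⟩ := h5 p k L vL hvL hRL
    ((MulAction.stabilizer P1 w0).comap i1.toMonoidHom) W τ hbij J hJ e a (max m0 1)
  have hm1 : 1 ≤ m := le_trans (le_max_right _ _) hm
  have hmm0 : m0 ≤ m := le_trans (le_max_left _ _) hm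
  have hpm : ¬ p ∣ m := by
    intro hp
    apply he
    have hpa : (p : ℤ) ∣ ((p ^ a : ℕ) : ℤ) := by
      exact_mod_cast dvd_pow_self p (by omega : a ≠ 0)
    have h1' : (p : ℤ) ∣ (m : ℤ) - e := hpa.trans hdm
    have h2' : (p : ℤ) ∣ (m : ℤ) := by exact_mod_cast hp
    have h3' := dvd_sub h2' h1'
    rwa [sub_sub_cancel] at h3'
  -- the fixed field
  obtain ⟨F, hFdef⟩ : ∃ F : IntermediateField (LaurentSeries k) L, F =
    IntermediateField.fixedField ((MulAction.stabilizer P1 w0).comap i1.toMonoidHom) := ⟨_, rfl⟩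
  have hFfix : F.fixingSubgroup = (MulAction.stabilizer P1 w0).comap i1.toMonoidHom := by
    rw [hFdef, IntermediateField.fixingSubgroup_fixedField]
  have hFmem : ∀ g : L ≃ₐ[LaurentSeries k] L, i1 g • w0 = w0 ↔
      ∀ x : F, g (algebraMap F L x) = algebraMap F L x := by
    intro g
    have h1' : i1 g • w0 = w0 ↔ g ∈ F.fixingSubgroup := by
      rw [hFfix]
      exact Iff.rfl
    rw [h1', IntermediateField.mem_fixingSubgroup_iff]
    constructor
    · intro h x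
      exact h x x.2
    · intro h x hx
      exact h ⟨x, hx⟩
  have hTF : T ∈ F := by
    rw [hFdef, IntermediateField.mem_fixedField_iff]
    exact hTf
  have hfr : Module.finrank F L =
      Nat.card ((MulAction.stabilizer P1 w0).comap i1.toMonoidHom) := by
    rw [hFdef, IntermediateField.finrank_fixedField_eq_card]
  have : Algebra.IsSeparable (LaurentSeries k) F :=
    Algebra.isSeparable_tower_bot_of_isSeparable (LaurentSeries k) F L
  obtain ⟨vF, hvF, hTVF⟩ := g7 k F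
  have hvTF : vF ⟨T, hTF⟩ = ((-(m : ℤ) : ℤ) : WithTop ℤ) := by
    rw [hvF]
    refine lbw_div (Module.finrank F L) m Module.finrank_pos _ ?_
    rw [← g3 k F L ⟨T, hTF⟩, hfr]
    have h1' : algebraMap F L ⟨T, hTF⟩ = T := rfl
    rw [h1', ← hvL, hvT]
  -- the parameter
  have : Infinite k := IsAlgClosed.instInfinite
  obtain ⟨l, hl0, hl⟩ := lbw_avoid
    (fun χ : W → (B →* Multiplicative (ZMod p)) =>
      {l : k | ∃ h : L, h ^ p - h = ∑ w, ∑ j ∈ J,
        algebraMap (LaurentSeries k) L (κ0 k (a0 (χ w) j)) *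
          (algebraMap (LaurentSeries k) L (κ0 k l) * τ w T) ^ j})
    (fun χ => ∃ w, χ w ≠ 1) (fun χ hχ => by
      obtain ⟨w, hw⟩ := hχ
      obtain ⟨j, hj, hj'⟩ := hane (χ w) hw
      exact h6 p k L vL hvL hRL hPL ((MulAction.stabilizer P1 w0).comap i1.toMonoidHom) W τ hbij
        J hJ T hTf hTr (fun w j => a0 (χ w) j) ⟨w, j, hj, hj'⟩)
  -- the element `z` of valuation `-m`
  obtain ⟨z, hz⟩ : ∃ z : F, z = algebraMap (LaurentSeries k) F (κ0 k l) * ⟨T, hTF⟩ := ⟨_, rfl⟩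
  have hvz : vF z = ((-(m : ℤ) : ℤ) : WithTop ℤ) := by
    rw [hz, AddValuation.map_mul, hvTF]
    have h0 : vF (algebraMap (LaurentSeries k) F (κ0 k l)) = 0 := hTVF.alg l hl0
    rw [h0, zero_add]
  have hz0 : z ≠ 0 := by
    intro h0
    rw [h0, AddValuation.map_zero] at hvz
    exact WithTop.top_ne_coe hvz
  have hvy : vF z⁻¹ = ((m : ℤ) : WithTop ℤ) := lbw_inv vF z m hvz
  have hzL : algebraMap F L z = algebraMap (LaurentSeries k) L (κ0 k l) * T := by
    rw [hz, map_mul]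
    rfl
  obtain ⟨ι, hι1, hι2, hι3⟩ := h1 k F vF hvF z⁻¹ m hm1 hvy
  obtain ⟨N, iN1, iN2, iN3, iN4, iN5, iN6, iN7, iN8, j, r, hj1, hj2, hj3⟩ :=
    h2 p k F ι m hm1 hpm (fun x => by rw [← hvF, hι3]) M0 hPM
  obtain ⟨vN, hvN, _⟩ := g7 k N
  have hcond := h3 p k F N M0 vN hvN hPM hNM j r m hm1 hpm hj2 hj3
  refine ⟨m, hdm, ?_⟩
  have hlt : c1 < cond (fun σ : N ≃ₐ[F] N => s vN σ) / (Fintype.card W : ℝ) := by
    rw [hcond, lt_div_iff₀ hWpos]
    rw [div_lt_iff₀ hcpos] at hm0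
    have h1' : (m0 : ℝ) ≤ (m : ℝ) := by exact_mod_cast hmm0
    have h2' := mul_le_mul_of_nonneg_right h1' hcpos.le
    linarith
  have hmain := h7 p k F L N vL vN hvL hvN hPL P1 i1 W w0 hFmem τ hτ B hB (r.trans i0)
    (fun χ => j (y0 χ)) (fun χ => ι (pol (a0 χ)))
    (fun χ σ => by
      show σ (j (y0 χ)) = _
      rw [← hj2 σ (y0 χ), hy0 χ (r σ), map_add, map_natCast]
      rfl)
    (fun χ => by
      show j (y0 χ) ^ p - j (y0 χ) = _
      rw [← map_pow, ← map_sub, hyp χ, hj1])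
    (fun χ hχ h hh => hl χ hχ ⟨h, by
      rw [hh]
      refine Finset.sum_congr rfl fun w _ => ?_
      show τ w (algebraMap F L (ι (pol (a0 (χ w))))) = _
      rw [lbw_pol ι z hz0 hι2 (a0 (χ w)) J (hJs (χ w)), map_sum, map_sum]
      refine Finset.sum_congr rfl fun j' _ => ?_
      rw [hι1, map_mul, map_pow, hzL, map_mul, map_pow, map_mul,
        ← IsScalarTower.algebraMap_apply (LaurentSeries k) F L, AlgEquiv.commutes,
        AlgEquiv.commutes]⟩)
    c1 hc1 d hd hlt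
  rw [hcond] at hmain
  exact hmain

/-- the lower bound for wreath products -/
theorem st_LBW (h1 : ST_EVA.{u}) (h2 : ST_TAME.{u}) (h3 : ST_CT.{u}) (h4 : ST_CHA.{u})
    (h5 : ST_TRC.{u}) (h6 : ST_GEN.{u}) (h7 : ST_ONE.{u}) (h8 : ST_PAR.{u}) (g1 : ST_EMB.{u})
    (g2 : ST_RAM.{u}) (g3 : ST_TOW.{u}) (g4 : ST_CL.{u}) (g5 : ST_COND.{u}) (g6 : ST_RFV.{u})
    (g7 : ST_VAL.{u}) : ST_LBW.{u} := by
  intro p _ k _ _ _ P1 _ _ hP1 W _ _ _ _ B _ _ _ hB
  classical
  obtain ⟨L, iF, iA, iFD, iG, ⟨i1⟩⟩ := lbw_ext g1 p k P1 hP1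
  obtain ⟨vL, hvL, hRL⟩ := g2 k L
  have hPL : IsPGroup p (L ≃ₐ[LaurentSeries k] L) :=
    hP1.of_injective i1.toMonoidHom i1.injective
  obtain ⟨w0⟩ : Nonempty W := inferInstance
  have hτ0 : ∀ w : W, ∃ g : L ≃ₐ[LaurentSeries k] L, i1 g • w0 = w := by
    intro w
    obtain ⟨g, hg⟩ := MulAction.exists_smul_eq P1 w0 w
    exact ⟨i1.symm g, by rw [MulEquiv.apply_symm_apply]; exact hg⟩
  choose τ hτ using hτ0
  obtain ⟨d, hd, hpd⟩ := h8 p k L vL hvL hRL hPL
    ((MulAction.stabilizer P1 w0).comap i1.toMonoidHom)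
  obtain ⟨c1, hc1⟩ := g4 p k L
  refine ⟨d, ?_, ?_⟩
  · intro hW
    refine hpd fun htop => hW ?_
    rw [Fintype.card_eq_one_iff]
    refine ⟨w0, fun w => ?_⟩
    have h1' : τ w ∈ (MulAction.stabilizer P1 w0).comap i1.toMonoidHom := by
      rw [htop]
      exact Subgroup.mem_top _
    have h2' : i1 (τ w) • w0 = w0 := h1'
    rw [← hτ w, h2']
  · intro c hc e a ha he
    exact lbw_core h1 h2 h3 h4 h5 h6 h7 g2 g3 g5 g6 g7 p k P1 W B hB L vL hvL hRL hPL i1 w0 τ hτ
      c1 hc1 d hd c hc e a ha he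

end Pool.Agent.Helper26.WR
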